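import Pool.Agent.U449.BV.R
import Pool.Agent.Results.MP_7bc610_gt.FullTwistBoxes

/-!
# Unit Jones polynomials in families with several full twists, near the values of polynomials on arbitrary thin sets

Let `0 ≤ κ`, `(k - 1) + k κ < δ ≤ k`, let `p` be a large prime, `f(x, y)` ANY polynomial of bounded degree over the field of `p ^ k` elements
with a monomial which contains both variables (for example `f = x y`), let `A`, `B` be ARBITRARY subsets of this field with at least
`p ^ δ` elements, and `g`, `h` ARBITRARY functions. For all the pairs `(a, b)` in `A × B`, apart from a proportion of at most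
`p ^ (-ρ)`, and for ALL integral vectors `w` at a distance of at most `p ^ κ` from the vector of the least residues of the `k`
coordinates of `f(a, b) + g(a) + h(b)`: the normalised brackets of ALL the diagrams of links in thickened surfaces
with `w e` full twists in the box `e`, for `k` boxes in a given diagram, are not `1`, unless all boxes are exceptional and all
normalised brackets of the family are `1`.
More generally, this holds for the values `F(a, b)` of all vector functions of two variables with few coincidences
(`RareV`), on arbitrary finite sets.

Since the sets and the functions `g` and `h` are arbitrary, the vectors have no arithmetic structure, and a vector may be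
taken by very many pairs. So the number of the exceptions (starting library) does not give the result directly. Proof: the
inequality of Cauchy and Schwarz; for most pairs `a, a'` the difference `F(a, b) - F(a', b)` is small for few `b`
(`Pool.Agent.U449.BV`).
-/

set_option autoImplicit false

namespace Pool.Agent.Results.MP_7bc610_gt.MixedFullTwists

open Pool.Agent.H891R2.Jones Pool.Agent.H297.FT
open Pool.Agent.U449.BV (RareV OnProductsV on_products_pi coordinates)

/-- For ALL `w ∈ ℤ^k` with `|w_i - x_i| ≤ W` for all `i` the normalised bracket of the diagram with `w e` full twists in the box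
`e` is not `1`. -/
def Near {m k : ℕ} (O : Outer m) (B : Boxes m k) (W : ℝ) (x : Fin k → ℝ) : Prop :=
  ∀ w : Fin k → ℤ, (∀ i, |(w i : ℝ) - x i| ≤ W) → (family O B w).fPoly ≠ 1

/-- **Theorem.** Let `O` be a diagram of links in thickened surfaces and let `k` boxes `B` be given, on strands of `O`. Either all boxes are exceptional and all
normalised brackets of the family are `1`, or for `κ ≥ 0` the property `Near O B`, with windows of length `X ^ κ`, holds for almost
all values of vector functions of two variables with few coincidences, on arbitrary finite sets of at least `X ^ δ`
elements, `k - 1 + k κ < δ ≤ k` (`OnProductsV`).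
The tuples of the least residues modulo `p` of the coordinates (with respect to a basis over the field of `p` elements) of
`f(a, b) + g(a) + h(b)` in a field of `p ^ k` elements are such a function, with `X = p`, for all polynomials `f` over this
field with a monomial which contains both variables, arbitrary functions `g` and `h`, and arbitrary finite subsets. -/
theorem result :
    (∀ (m k : ℕ), 0 < m → ∀ O : Outer m, O.close.IsClosed → ∀ B : Boxes m k,
      ((∀ e, Exceptional (B.size e) (lk O (B.off e) (B.size e))) ∧ ∀ w, (family O B w).fPoly = 1) ∨
      ∀ κ : ℝ, 0 ≤ κ → OnProductsV k (((k - 1 : ℕ) : ℝ) + k * κ) κ (Near O B)) ∧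
    ∀ (p : ℕ) [Fact p.Prime] (k : ℕ) (K : Type) [Field K] [Algebra (ZMod p) K] (e : Module.Basis (Fin k) (ZMod p) K)
      (d : ℕ) (f : MvPolynomial (Fin 2) K), f.totalDegree ≤ d → (∃ m ∈ f.support, m 0 ≠ 0 ∧ m 1 ≠ 0) →
      ∀ (g h : K → K) (A B : Finset K),
        RareV d A B (fun a b i => (((e.repr (MvPolynomial.eval ![a, b] f + g a + h b) i).val : ℕ) : ℝ)) := by
  classical
  refine ⟨fun m k hm O hO B => ?_, coordinates⟩
  rcases (FullTwistBoxes.result hm O hO B).2.2 with h | h
  · exact Or.inl h
  · refine Or.inr fun κ hκ => ?_
    refine (on_products_pi {w : Fin k → ℤ | (family O B w).fPoly = 1} (fun e => hNum (B.size e) (lk O (B.off e) (B.size e)))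
      hκ (fun A => ?_)).mono (fun W x _ h' w hw hF => h' w hw hF)
    refine le_trans (le_of_eq ?_) (h A)
    rw [← Set.ncard_coe_finset]
    congr 1
    ext w
    simp only [Set.mem_ofPred_eq, Finset.coe_filter, Fintype.mem_piFinset]

end Pool.Agent.Results.MP_7bc610_gt.MixedFullTwists
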