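import Pool.Agent.U449.BV.R
import Pool.Agent.Results.MP_7bc610_gt.PolynomialTwistRegions

/-!
# Jones polynomials of links in thickened surfaces with many twist regions, near the values of polynomials on arbitrary thin sets

Let `0 ≤ κ`, `(k - 1) + k κ < δ ≤ k`, let `p` be a large prime, `f(x, y)` ANY polynomial of bounded degree over the field of `p ^ k` elements
with a monomial which contains both variables (for example `f = x y`), let `A`, `B` be ARBITRARY subsets of this field with at least
`p ^ δ` elements, and `g`, `h` ARBITRARY functions. For all the pairs `(a, b)` in `A × B`, apart from a proportion of at most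
`p ^ (-ρ)`, and for ALL integral vectors `w` at a distance of at most `p ^ κ` from the vector of the least residues of the `k`
coordinates of `f(a, b) + g(a) + h(b)`: the Jones polynomials of ALL the links in thickened
surfaces given by a template with `k` boxes (not all nugatory), with `|w e|` crossings in the box `e` and any directions, have a
span greater than a given `s`, so that they are not `1`.
More generally, this holds for the values `F(a, b)` of all vector functions of two variables with few coincidences
(`RareV`), on arbitrary finite sets.

Since the sets and the functions `g` and `h` are arbitrary, the vectors have no arithmetic structure, and a vector may be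
taken by very many pairs. So the number of the exceptions (starting library) does not give the result directly. Proof: the
inequality of Cauchy and Schwarz; for most pairs `a, a'` the difference `F(a, b) - F(a', b)` is small for few `b`
(`Pool.Agent.U449.BV`).
-/

set_option autoImplicit false

namespace Pool.Agent.Results.MP_7bc610_gt.MixedTwistRegions

open Pool.Agent.H891R2.Jones Pool.Agent.H891R2.MT Pool.Agent.H832R3.TW
open Pool.Agent.U449.BV (RareV OnProductsV on_products_box coordinates)

/-- For ALL `w ∈ ℤ^k` with `|w_i - x_i| ≤ W` for all `i` and all directions the normalised bracket of the diagram `twisted arcs w` is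
not supported in an interval of length `4 s`. -/
def Near {k : ℕ} (arcs : List (Corner k × Corner k)) (s : ℕ) (W : ℝ) (x : Fin k → ℝ) : Prop :=
  ∀ w : Fin k → ℤ, (∀ i, |(w i : ℝ) - x i| ≤ W) → ∀ D : Diagram (Ribbon.Pt w), Orients D (twisted arcs w) → ¬ FSpanLE s D

/-- **Theorem.** Let `arcs` be a template with `k` boxes on an arbitrary surface, not all of them nugatory, and `s ≥ 0`, `κ ≥ 0`. The
property `Near arcs s`, with windows of length `X ^ κ`, holds for almost all values of vector functions of two
variables with few coincidences, on arbitrary finite sets of at least `X ^ δ` elements, `k - 1 + k κ < δ ≤ k` (`OnProductsV`).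
The tuples of the least residues modulo `p` of the coordinates (with respect to a basis over the field of `p` elements) of
`f(a, b) + g(a) + h(b)` in a field of `p ^ k` elements are such a function, with `X = p`, for all polynomials `f` over this
field with a monomial which contains both variables, arbitrary functions `g` and `h`, and arbitrary finite subsets. -/
theorem result :
    (∀ (k : ℕ) (arcs : List (Corner k × Corner k)), ¬ Nugatory arcs → ∀ (s : ℕ) (κ : ℝ), 0 ≤ κ →
      OnProductsV k (((k - 1 : ℕ) : ℝ) + k * κ) κ (Near arcs s)) ∧
    ∀ (p : ℕ) [Fact p.Prime] (k : ℕ) (K : Type) [Field K] [Algebra (ZMod p) K] (e : Module.Basis (Fin k) (ZMod p) K)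
      (d : ℕ) (f : MvPolynomial (Fin 2) K), f.totalDegree ≤ d → (∃ m ∈ f.support, m 0 ≠ 0 ∧ m 1 ≠ 0) →
      ∀ (g h : K → K) (A B : Finset K),
        RareV d A B (fun a b i => (((e.repr (MvPolynomial.eval ![a, b] f + g a + h b) i).val : ℕ) : ℝ)) := by
  classical
  refine ⟨fun k arcs hN s κ hκ => ?_, coordinates⟩
  refine (on_products_box {n : Fin k → ℤ | ∃ D : Diagram (Ribbon.Pt n), Orients D (twisted arcs n) ∧ FSpanLE s D}
    (2 * k * (8 * k + 2 * s + 3)) hκ (fun N => ?_)).mono (fun W x _ h w hw D hD hF => h w hw ⟨D, hD, hF⟩)
  have h1 := (PolynomialTwistRegions.result k arcs hN s).2 N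
  refine le_trans (le_of_eq ?_) h1
  congr 1

end Pool.Agent.Results.MP_7bc610_gt.MixedTwistRegions
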