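import Pool.Agent.U999.GW.Fin

/-!
# The Jones polynomials of random virtual knots

Starting library, `Pool.Agent.H832R2.JR.Defs`: `GaussWord N = (Fin N × Bool ≃ Fin (2 N))` (the order in which
the two passages `(c, false)`, `(c, true)` of each of the `N` crossings `c` are met when one travels along an
oriented knot diagram on a surface; all of the `(2 N)!` bijections occur for virtual knots), `fPoly G w` (the
normalised bracket, a state sum over the `2^N` states in which all loops count equally, of the diagram with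
Gauss word `G` and crossings of the signs `w : Fin N → Bool`), `Crosses G i j` (the chords of the crossings `i`
and `j` of the Gauss diagram intersect), `IsMatching G u v` (the pairs `u k`, `v k` are pairwise disjoint, and
the chords `u k` and `v k` intersect).

Proof.  The chords are divided into pairs.  If three of the four ends of the two chords of a pair are
permuted cyclically, then exactly one of the three Gauss words obtained in this way has intersecting chords;
for different pairs these operations commute and are independent of each other.  So the number of the pairs of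
intersecting chords has a binomial distribution with parameter `1/3`, and the exponential moment bounds the
probability that it is small (`Pool.Agent.U999.GW`, new).  Then the second moment of the bracket at `A = 1` is a
quadratic form in the signs with a large matching of nonzero entries, and the quadratic Littlewood-Offord
inequality of the starting library (`Pool.Agent.W642.RS.qlo`) applies.
-/

set_option autoImplicit false

namespace Pool.Agent.Results.MP_7bc610_gt.RandomGaussWords

open Finset LaurentPolynomial Pool.Agent.H832R2.JR Pool.Agent.U999.GW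

open Classical in
/-- **Random virtual knots.**  Let `N > 0`.

* There is a set `B` of at most `2 (39/40)^N (2 N)!` of the `(2 N)!` Gauss words with `N` crossings such that
  every Gauss word `G` which is not in `B` has more than `N / 12` pairwise disjoint pairs of crossings whose
  chords intersect, and for every Laurent polynomial `F` (for instance `F = 1`) the normalised bracket agrees
  with `F` up to terms of order `3` at `A = 1` for at most `(384 / N)^(1/4) 2^N` of the `2^N` choices of the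
  signs of the crossings; in particular at most so many of them have normalised bracket `F`.
* If the Gauss word and the signs are chosen uniformly at random, then for every `F` the normalised bracket
  is equal to `F`, or agrees with `F` up to terms of order `3` at `A = 1`, with a probability at most
  `2 (39/40)^N + (384 / N)^(1/4)`.  So the proportion of the knot diagrams on surfaces with `N` crossings
  which have the Jones polynomial `1` tends to zero. -/
theorem result (N : ℕ) (hN : 0 < N) :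
    (∃ B : Finset (GaussWord N), (B.card : ℝ) ≤ 2 * (39 / 40 : ℝ) ^ N * ((2 * N).factorial : ℝ) ∧
      ∀ G ∉ B, (∃ (m : ℕ) (u v : Fin m → Fin N), N < 12 * m ∧ IsMatching G u v) ∧
        ∀ F : ℤ[T;T⁻¹],
          N * #{w : Fin N → Bool | (T 1 - 1 : ℤ[T;T⁻¹]) ^ 3 ∣ fPoly G w - F} ^ 4 ≤ 384 * (2 ^ N) ^ 4 ∧
          N * #{w : Fin N → Bool | fPoly G w = F} ^ 4 ≤ 384 * (2 ^ N) ^ 4) ∧
    ∀ F : ℤ[T;T⁻¹],
      (#{Gw : GaussWord N × (Fin N → Bool) |
          (T 1 - 1 : ℤ[T;T⁻¹]) ^ 3 ∣ fPoly Gw.1 Gw.2 - F} : ℝ) ≤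
        (2 * (39 / 40 : ℝ) ^ N + (384 / N : ℝ) ^ (1 / 4 : ℝ)) * (((2 * N).factorial : ℝ) * 2 ^ N) ∧
      (#{Gw : GaussWord N × (Fin N → Bool) | fPoly Gw.1 Gw.2 = F} : ℝ) ≤
        (2 * (39 / 40 : ℝ) ^ N + (384 / N : ℝ) ^ (1 / 4 : ℝ)) * (((2 * N).factorial : ℝ) * 2 ^ N) := by
  set B : Finset (GaussWord N) := univ.filter fun G : GaussWord N =>
      ¬ ∃ (m : ℕ) (u v : Fin m → Fin N), N < 12 * m ∧ IsMatching G u v with hB
  have hBc : (B.card : ℝ) ≤ 2 * (39 / 40 : ℝ) ^ N * ((2 * N).factorial : ℝ) := words N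
  have hgood : ∀ G ∉ B, ∃ (m : ℕ) (u v : Fin m → Fin N), N < 12 * m ∧ IsMatching G u v := by
    intro G hG
    rw [hB, mem_filter, not_and, not_not] at hG
    exact hG (mem_univ _)
  have hsub : ∀ (G : GaussWord N) (F : ℤ[T;T⁻¹]), #{w : Fin N → Bool | fPoly G w = F} ≤
      #{w : Fin N → Bool | (T 1 - 1 : ℤ[T;T⁻¹]) ^ 3 ∣ fPoly G w - F} := by
    intro G F
    refine card_le_card fun w hw => ?_
    rw [mem_filter] at hw ⊢
    exact ⟨hw.1, by rw [hw.2, sub_self]; exact dvd_zero _⟩
  have h1 : ∀ G ∉ B, ∀ F : ℤ[T;T⁻¹],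
      N * #{w : Fin N → Bool | (T 1 - 1 : ℤ[T;T⁻¹]) ^ 3 ∣ fPoly G w - F} ^ 4 ≤
        384 * (2 ^ N) ^ 4 := by
    intro G hG F
    obtain ⟨m, u, v, hm, huv⟩ := hgood G hG
    have h2 := fixed G m u v huv F
    calc _ ≤ (12 * m) * #{w : Fin N → Bool | (T 1 - 1 : ℤ[T;T⁻¹]) ^ 3 ∣ fPoly G w - F} ^ 4 :=
          Nat.mul_le_mul_right _ hm.le
      _ = 12 * (m * #{w : Fin N → Bool | (T 1 - 1 : ℤ[T;T⁻¹]) ^ 3 ∣ fPoly G w - F} ^ 4) := by ring
      _ ≤ 12 * (32 * (2 ^ N) ^ 4) := Nat.mul_le_mul_left _ h2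
      _ = _ := by ring
  refine ⟨⟨B, hBc, fun G hG => ⟨hgood G hG, fun F => ⟨h1 G hG F, ?_⟩⟩⟩, fun F => ?_⟩
  · exact (Nat.mul_le_mul_left _ (Nat.pow_le_pow_left (hsub G F) 4)).trans (h1 G hG F)
  have hN0 : (0 : ℝ) < N := by exact_mod_cast hN
  set β : ℝ := (384 / N : ℝ) ^ (1 / 4 : ℝ) with hβ
  have hβ0 : 0 ≤ β := by positivity
  have hβ4 : β ^ 4 = 384 / N := by
    rw [hβ, ← Real.rpow_natCast, ← Real.rpow_mul (by positivity)]
    norm_num
  have hgoodb : ∀ G ∉ B,
      ((#{w : Fin N → Bool | (T 1 - 1 : ℤ[T;T⁻¹]) ^ 3 ∣ fPoly G w - F} : ℕ) : ℝ) ≤ β * 2 ^ N := by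
    intro G hG
    have h2 := h1 G hG F
    have h3 : (N : ℝ) * ((#{w : Fin N → Bool |
        (T 1 - 1 : ℤ[T;T⁻¹]) ^ 3 ∣ fPoly G w - F} : ℕ) : ℝ) ^ 4 ≤ 384 * ((2 : ℝ) ^ N) ^ 4 := by
      exact_mod_cast h2
    have h4 : ((#{w : Fin N → Bool |
        (T 1 - 1 : ℤ[T;T⁻¹]) ^ 3 ∣ fPoly G w - F} : ℕ) : ℝ) ^ 4 ≤ (β * 2 ^ N) ^ 4 := by
      rw [mul_pow, hβ4, div_mul_eq_mul_div, le_div_iff₀ hN0]
      linarith
    exact (pow_le_pow_iff_left₀ (by positivity) (by positivity) (by norm_num)).1 h4
  have hcardG : Fintype.card (GaussWord N) = (2 * N).factorial := by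
    have hc : Fintype.card (Fin N × Bool) = 2 * N := by
      rw [Fintype.card_prod, Fintype.card_fin, Fintype.card_bool, mul_comm]
    rw [Fintype.card_equiv (Fintype.equivFinOfCardEq hc), hc]
  have hmain : (#{Gw : GaussWord N × (Fin N → Bool) |
          (T 1 - 1 : ℤ[T;T⁻¹]) ^ 3 ∣ fPoly Gw.1 Gw.2 - F} : ℝ) ≤
        (2 * (39 / 40 : ℝ) ^ N + β) * (((2 * N).factorial : ℝ) * 2 ^ N) := by
    have e1 : (#{Gw : GaussWord N × (Fin N → Bool) |
          (T 1 - 1 : ℤ[T;T⁻¹]) ^ 3 ∣ fPoly Gw.1 Gw.2 - F} : ℕ) =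
        ∑ G : GaussWord N, #{w : Fin N → Bool |
          (T 1 - 1 : ℤ[T;T⁻¹]) ^ 3 ∣ fPoly G w - F} := by
      simp only [card_filter]
      rw [Fintype.sum_prod_type]
    rw [e1]
    push_cast
    rw [← sum_filter_add_sum_filter_not univ (fun G => G ∈ B)]
    have h7 : ∑ G ∈ univ.filter (fun G => G ∈ B), ((#{w : Fin N → Bool |
          (T 1 - 1 : ℤ[T;T⁻¹]) ^ 3 ∣ fPoly G w - F} : ℕ) : ℝ) ≤
          2 * (39 / 40 : ℝ) ^ N * ((2 * N).factorial : ℝ) * 2 ^ N := by
      calc _ ≤ ∑ _G ∈ univ.filter (fun G => G ∈ B), (2 : ℝ) ^ N := by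
            refine sum_le_sum fun G _ => ?_
            have : #{w : Fin N → Bool | (T 1 - 1 : ℤ[T;T⁻¹]) ^ 3 ∣ fPoly G w - F} ≤ 2 ^ N := by
              refine (card_le_univ _).trans ?_
              rw [Fintype.card_fun, Fintype.card_bool, Fintype.card_fin]
            exact_mod_cast this
        _ = (B.card : ℝ) * 2 ^ N := by
          rw [sum_const, nsmul_eq_mul]
          congr 3
          ext r; simp
        _ ≤ _ := by gcongr
    have h8 : ∑ G ∈ univ.filter (fun G => ¬ G ∈ B), ((#{w : Fin N → Bool |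
          (T 1 - 1 : ℤ[T;T⁻¹]) ^ 3 ∣ fPoly G w - F} : ℕ) : ℝ) ≤
          ((2 * N).factorial : ℝ) * (β * 2 ^ N) := by
      calc _ ≤ ∑ _G ∈ univ.filter (fun G => ¬ G ∈ B), β * 2 ^ N :=
            sum_le_sum fun G hG => hgoodb G (mem_filter.1 hG).2
        _ = ((univ.filter (fun G => ¬ G ∈ B)).card : ℝ) * (β * 2 ^ N) := by
          rw [sum_const, nsmul_eq_mul]
        _ ≤ _ := by
          gcongr
          have : (univ.filter (fun G => ¬ G ∈ B)).card ≤ (2 * N).factorial :=
            (card_le_univ _).trans hcardG.le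
          exact_mod_cast this
    calc _ ≤ 2 * (39 / 40 : ℝ) ^ N * ((2 * N).factorial : ℝ) * 2 ^ N +
          ((2 * N).factorial : ℝ) * (β * 2 ^ N) := add_le_add h7 h8
      _ = _ := by ring
  refine ⟨hmain, le_trans ?_ hmain⟩
  norm_cast
  refine card_le_card fun w hw => ?_
  rw [mem_filter] at hw ⊢
  exact ⟨hw.1, by rw [hw.2, sub_self]; exact dvd_zero _⟩

end Pool.Agent.Results.MP_7bc610_gt.RandomGaussWords
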