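import Pool.Agent.U963.VB.Main

/-!
# The virtual closures of two 3-braids with unit Jones polynomial

Diagrams (starting library `Pool.Agent.H891R2.Jones.Diagram`): a virtual link diagram is given by its classical
crossings and arcs (virtual crossings are not recorded), `Diagram.fPoly` is the normalised bracket
`f = (-A^{-3})^{w(D)} ⟨D⟩ ∈ ℤ[A, A⁻¹]` (`A = T 1`), `Outer m` the part of an oriented diagram outside a box through
which `m` strands run, `IsClosed` says that the pieces form closed oriented curves.  `Letter 3` are the letters
`σ_1^{±1}, σ_2^{±1}`, `dia O w` is the diagram with the braid word `w` in the box of `O` (read from the bottom to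
the top), `braidClosure 3` the outside for the usual closure of 3-braids, `draw O u` the outside with the word
`u` drawn in the lower part of the box, `powW w n` the `n`-th power of a word.

New definitions (`Pool.Agent.U963.VB.Defs`):
* `twoBraids u` is the outside of the box of the virtual link `V(u, w)` with two boxes which contain the 3-braids
  `u` and `w`: the third strand of `u` is closed as in the closed braid (`closeLast`), the first and the second
  strand of `u` are joined to the left and the right strand of `w`, and the upper middle end of `w` is joined to
  its lower middle end by an arc which crosses the other strands only in virtual crossings (`insertVirtual`).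
Definitions of `MP_79b4ff_gt.ThreeBraids` (`Pool.Agent.U963.KN.Defs`, `Pool.Agent.U963.OB.Defs`):
* `SameBraid w w'`: the words `w`, `w'` represent the same element of the braid group `B_3`;
* `Unknotted w`: `w` is conjugate in `B_3` to `σ_1 σ_2`, `σ_1⁻¹ σ_2⁻¹` or `σ_1 σ_2⁻¹` (these are the 3-braids whose
  closure is the trivial knot).

If `w` is a letter, then its crossing is the crossing of a loop whose other part is the virtual arc, and `V(u, w)` is
equivalent to the closed braid `u`.  If `u = σ_1^n σ_2^{±1} σ_1^{-n}`, then the box of `u` can be replaced by two
parallel strands, and `V(u, w)` is the closed braid `w`.  So all virtual links in the list are trivial knots.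

Proof.  With the coefficients `a_i` of `u` and `b_i` of `w` in the Temperley–Lieb algebra the bracket is
`α (d² + d b_1 + d b_2 + b_3 + b_4) + β (d + b_1 + b_2 + b_3 + b_4)`, `α = d + a_2`, `β = d a_1 + a_3 + a_4`.
The parity of the exponents splits the equation `f = 1` into `β (b_3 + b_4) = 0` and a second equation (or into
two equations which have no solution at `A² = 1`).  If `β = 0`, then the second equation says that `α` and the
trace function of `w` are units; the unitarity of the two-dimensional representation, the value and the
derivative at `A² = 1` show which units they are.  If `b_3 + b_4 = 0`, then `d + b_1 + b_2` and the trace function of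
`u` are units, and an equation `x (1 - x) = y ȳ` with `x = x̄` shows that `w` is a letter.
-/

set_option autoImplicit false

namespace Pool.Agent.Results.MP_7bc610_gt.TwoBraids

open Pool.Agent.H891R2.Jones Pool.Agent.W639.RB Pool.Agent.Y463.SK Pool.Agent.U963.KN Pool.Agent.U963.OB
open Pool.Agent.U963.VB (twoBraids)

/-- For all words `u`, `w` in the generators of the braid group on three strands the virtual link diagram `V(u, w)`
is closed, and its normalised bracket polynomial is `1` if and only if `w` represents one of the four
generators and inverse generators and `u` is conjugate to `σ_1 σ_2`, `σ_1⁻¹ σ_2⁻¹` or `σ_1 σ_2⁻¹`, or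
`u = σ_1^n σ_2^{±1} σ_1^{-n}` in the braid group for some `n` and `w` is conjugate to one of these three
braids. -/
theorem result (u w : List (Letter 3)) :
    (dia (twoBraids u) w).IsClosed ∧ ((dia (twoBraids u) w).fPoly = 1 ↔
      ((∃ x : Letter 3, SameBraid w [x]) ∧ Unknotted u) ∨
      ((∃ (s : Bool) (n : ℤ), SameBraid u (s1 n ++ [(s, 1)] ++ s1 (-n))) ∧ Unknotted w)) :=
  ⟨closed_two u w, two_iff u w⟩

end Pool.Agent.Results.MP_7bc610_gt.TwoBraids
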